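import Mathlib

open Finset ComplexConjugate

namespace Pool.N250.TwoEll

/-- divided difference of `x ^ k` -/
noncomputable def S (k : ℕ) (x y : ℂ) : ℂ := ∑ i ∈ range k, x ^ i * y ^ (k - 1 - i)

lemma S_mul (k : ℕ) (x y : ℂ) : (x - y) * S k x y = x ^ k - y ^ k := by
  rw [mul_comm]
  exact (Commute.all x y).geom_sum₂_mul k

lemma S_zero (x y : ℂ) : S 0 x y = 0 := by simp [S]

lemma S_succ (k : ℕ) (x y : ℂ) : S (k + 1) x y = x * S k x y + y ^ k := by
  unfold S
  rw [sum_range_succ']
  simp only [pow_zero, one_mul, Nat.add_sub_cancel, Nat.sub_zero]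
  congr 1
  rw [mul_sum]
  apply sum_congr rfl
  intro i hi
  rw [mem_range] at hi
  rw [pow_succ]
  have : k - (i + 1) = k - 1 - i := by omega
  rw [this]
  ring

lemma S_self (k : ℕ) (x : ℂ) : S k x x = k * x ^ (k - 1) := by
  unfold S
  rw [sum_congr rfl (g := fun _ => x ^ (k - 1))]
  · simp
  · intro i hi
    rw [mem_range] at hi
    rw [← pow_add]
    congr 1
    omega

lemma normSq_identity (x y : ℂ) :
    ‖1 - x * conj y‖ ^ 2 = ‖x - y‖ ^ 2 + (1 - ‖x‖ ^ 2) * (1 - ‖y‖ ^ 2) := by
  simp only [← Complex.normSq_eq_norm_sq, Complex.normSq_apply, Complex.sub_re, Complex.sub_im,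
    Complex.mul_re, Complex.mul_im, Complex.conj_re, Complex.conj_im, Complex.one_re,
    Complex.one_im]
  ring

lemma geom_identity (m : ℕ) (q : ℂ) : (1 - q) * ∑ i ∈ range m, q ^ i = 1 - q ^ m := by
  rw [mul_comm]
  have := geom_sum_mul_neg q m
  linear_combination this

lemma geom_identity_real (m : ℕ) (q : ℝ) : (1 - q) * ∑ i ∈ range m, q ^ i = 1 - q ^ m := by
  rw [mul_comm]
  have := geom_sum_mul_neg q m
  linear_combination this

/-- strict Cauchy-Schwarz -/
lemma strict_cs {m : ℕ} (hm : 2 ≤ m) {α β : ℂ} (hne : α ≠ β) :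
    ‖∑ i ∈ range m, (α * conj β) ^ i‖ ^ 2
      < (∑ i ∈ range m, (‖α‖ ^ 2) ^ i) * (∑ i ∈ range m, (‖β‖ ^ 2) ^ i) := by
  set x : EuclideanSpace ℂ (Fin m) := WithLp.toLp 2 (fun i => α ^ (i : ℕ)) with hx
  set y : EuclideanSpace ℂ (Fin m) := WithLp.toLp 2 (fun i => β ^ (i : ℕ)) with hy
  have hin : inner ℂ y x = ∑ i ∈ range m, (α * conj β) ^ i := by
    rw [PiLp.inner_apply, Finset.sum_range]
    apply sum_congr rfl
    intro i _
    simp only [hx, hy, RCLike.inner_apply, map_pow]
    rw [mul_pow]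
  have hxn : ‖x‖ ^ 2 = ∑ i ∈ range m, (‖α‖ ^ 2) ^ i := by
    rw [EuclideanSpace.norm_sq_eq, Finset.sum_range]
    apply sum_congr rfl
    intro i _
    simp only [hx, norm_pow]
    rw [← pow_mul, ← pow_mul, mul_comm]
  have hyn : ‖y‖ ^ 2 = ∑ i ∈ range m, (‖β‖ ^ 2) ^ i := by
    rw [EuclideanSpace.norm_sq_eq, Finset.sum_range]
    apply sum_congr rfl
    intro i _
    simp only [hy, norm_pow]
    rw [← pow_mul, ← pow_mul, mul_comm]
  rw [← hin, ← hxn, ← hyn, ← mul_pow]
  have hx0 : x ≠ 0 := by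
    intro h
    have := congrArg (fun v : EuclideanSpace ℂ (Fin m) => v ⟨0, by omega⟩) h
    simp [hx] at this
  have hy0 : y ≠ 0 := by
    intro h
    have := congrArg (fun v : EuclideanSpace ℂ (Fin m) => v ⟨0, by omega⟩) h
    simp [hy] at this
  have hle := norm_inner_le_norm (𝕜 := ℂ) y x
  have hlt : ‖inner ℂ y x‖ < ‖y‖ * ‖x‖ := by
    refine lt_of_le_of_ne hle ?_
    intro heq
    obtain ⟨r, hr, hrx⟩ := (norm_inner_eq_norm_iff hy0 hx0).1 heq
    have h0 := congrArg (fun v : EuclideanSpace ℂ (Fin m) => v ⟨0, by omega⟩) hrx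
    have h1 := congrArg (fun v : EuclideanSpace ℂ (Fin m) => v ⟨1, by omega⟩) hrx
    simp [hx, hy] at h0 h1
    rw [← h0, one_mul] at h1
    exact hne h1
  rw [mul_comm ‖x‖]
  exact pow_lt_pow_left₀ hlt (norm_nonneg _) (by norm_num)

/-- strict Schwarz-Pick inequality for powers -/
lemma strict_SP {m : ℕ} (hm : 2 ≤ m) {α β : ℂ} (hα : ‖α‖ < 1) (hβ : ‖β‖ < 1) :
    ‖S m α β‖ < ‖∑ i ∈ range m, (α * conj β) ^ i‖ := by
  rcases eq_or_ne α β with rfl | hne
  · rw [S_self]
    have h1 : ∑ i ∈ range m, (α * conj α) ^ i = ((∑ i ∈ range m, (‖α‖ ^ 2) ^ i : ℝ) : ℂ) := by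
      rw [Complex.mul_conj, Complex.normSq_eq_norm_sq]
      push_cast
      rfl
    rw [h1, Complex.norm_real, Real.norm_of_nonneg (sum_nonneg (fun _ _ => by positivity)),
      norm_mul, norm_pow, Complex.norm_natCast]
    set r := ‖α‖ with hr
    have hr0 : 0 ≤ r := norm_nonneg _
    have h2 : ∑ i ∈ range m, (r ^ 2) ^ i = ∑ i ∈ range m, (r ^ 2) ^ (m - 1 - i) :=
      (sum_range_reflect (fun i => (r ^ 2) ^ i) m).symm
    have h3 : ∑ i ∈ range m, (2 * r ^ (m - 1)) < ∑ i ∈ range m, ((r ^ 2) ^ i + (r ^ 2) ^ (m - 1 - i)) := by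
      apply sum_lt_sum
      · intro i hi
        rw [mem_range] at hi
        have h4 : r ^ (m - 1) = r ^ i * r ^ (m - 1 - i) := by
          rw [← pow_add]; congr 1; omega
        rw [h4, ← pow_mul, ← pow_mul, mul_comm 2 i, mul_comm 2 (m - 1 - i), pow_mul, pow_mul]
        nlinarith [sq_nonneg (r ^ i - r ^ (m - 1 - i))]
      · refine ⟨0, by simp; omega, ?_⟩
        simp only [pow_zero, Nat.sub_zero]
        have h5 : r ^ (m - 1) < 1 := pow_lt_one₀ hr0 hα (by omega)
        rw [← pow_mul, mul_comm 2 (m - 1), pow_mul]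
        nlinarith [sq_nonneg (1 - r ^ (m - 1))]
    rw [sum_add_distrib, ← h2] at h3
    simp only [sum_const, card_range, nsmul_eq_mul] at h3
    linarith
  · set T := ∑ i ∈ range m, (α * conj β) ^ i with hT
    have hcs := strict_cs hm hne
    rw [← hT] at hcs
    set U := ∑ i ∈ range m, (‖α‖ ^ 2) ^ i with hU
    set V := ∑ i ∈ range m, (‖β‖ ^ 2) ^ i with hV
    have e1 := normSq_identity α β
    have e2 := normSq_identity (α ^ m) (β ^ m)
    have e3 : 1 - α ^ m * conj (β ^ m) = (1 - α * conj β) * T := by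
      rw [hT, geom_identity, map_pow, mul_pow]
    have e4 : α ^ m - β ^ m = (α - β) * S m α β := (S_mul m α β).symm
    have e5 : 1 - ‖α ^ m‖ ^ 2 = (1 - ‖α‖ ^ 2) * U := by
      rw [hU, geom_identity_real, norm_pow, ← pow_mul, ← pow_mul, mul_comm]
    have e6 : 1 - ‖β ^ m‖ ^ 2 = (1 - ‖β‖ ^ 2) * V := by
      rw [hV, geom_identity_real, norm_pow, ← pow_mul, ← pow_mul, mul_comm]
    rw [e3, e4, e5, e6, norm_mul, norm_mul, mul_pow, mul_pow, e1] at e2
    have hc : 0 < (1 - ‖α‖ ^ 2) * (1 - ‖β‖ ^ 2) := by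
      have := norm_nonneg α
      have := norm_nonneg β
      apply mul_pos <;> nlinarith
    have hd : 0 < ‖α - β‖ ^ 2 := by
      have := norm_pos_iff.2 (sub_ne_zero.2 hne)
      positivity
    set c := (1 - ‖α‖ ^ 2) * (1 - ‖β‖ ^ 2) with hcdef
    have e7 : ‖α - β‖ ^ 2 * ‖S m α β‖ ^ 2 < ‖α - β‖ ^ 2 * ‖T‖ ^ 2 := by
      have e8 : (‖α - β‖ ^ 2 + c) * ‖T‖ ^ 2 = ‖α - β‖ ^ 2 * ‖S m α β‖ ^ 2 + c * (U * V) := by
        rw [e2, hcdef]; ring
      nlinarith
    have e9 : ‖S m α β‖ ^ 2 < ‖T‖ ^ 2 := lt_of_mul_lt_mul_left e7 hd.le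
    exact lt_of_pow_lt_pow_left₀ 2 (norm_nonneg _) e9

/-- the algebraic heart of the uniqueness theorem -/
lemma alg {m : ℕ} {α β F G : ℂ} (hα : ‖α‖ < 1) (hβ : ‖β‖ < 1)
    (h0 : m = 0 → F = 0) (h1 : m = 1 → F.im = 0)
    (E1 : α * F + G + conj F * α ^ m + conj G * α ^ (m + 1) = 0)
    (E2 : F + conj F * S m α β + conj G * S (m + 1) α β = 0) : F = 0 ∧ G = 0 := by
  rcases Nat.lt_or_ge m 2 with hm | hm
  · interval_cases m
    · have hF := h0 rfl
      subst hF
      simp [S_succ, S_zero] at E2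
      exact ⟨rfl, E2⟩
    · have hF := h1 rfl
      simp [S_succ, S_zero] at E2
      have hG : G = conj G * (α * β) := by
        linear_combination E1 - α * E2
      have hG' : ‖G‖ = ‖G‖ * (‖α‖ * ‖β‖) := by
        conv_lhs => rw [hG]
        rw [norm_mul, norm_mul, Complex.norm_conj]
      have hG0 : G = 0 := by
        rw [← norm_eq_zero]
        have := norm_nonneg G
        have := norm_nonneg α
        have := norm_nonneg β
        have h2 : ‖α‖ * ‖β‖ < 1 := by nlinarith
        nlinarith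
      subst hG0
      simp only [map_zero, zero_mul, add_zero] at E2
      refine ⟨?_, rfl⟩
      have h3 := congrArg Complex.re E2
      simp at h3
      apply Complex.ext
      · simp; linarith
      · simpa using hF
  · set Y := conj F + α * conj G with hY
    set Y' := conj F + β * conj G with hY'
    set X := G + α * F with hX
    set X' := G + β * F with hX'
    have hXY : X = -α ^ m * Y := by
      rw [hX, hY]; linear_combination E1
    have hXY' : X' = -β ^ m * Y' := by
      rw [hX', hY']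
      have := S_mul m α β
      have := S_mul (m + 1) α β
      linear_combination E1 - (α - β) * E2 + conj F * S_mul m α β + conj G * S_mul (m + 1) α β
    have hFe : F = -S m α β * Y - β ^ m * conj G := by
      rw [hY]
      rw [S_succ] at E2
      linear_combination E2
    have hD1 : F * conj F - G * conj G = -(S m α β) * Y * Y' := by
      have e : F * conj F - G * conj G = F * Y' - conj G * X' := by
        rw [hY', hX']; ring
      rw [e, hXY']
      linear_combination Y' * hFe
    set T := ∑ i ∈ range m, (α * conj β) ^ i with hT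
    have hne1 : 1 - α * conj β ≠ 0 := by
      intro h
      have h2 : α * conj β = 1 := by linear_combination -h
      have h3 := congrArg norm h2
      rw [norm_mul, Complex.norm_conj, norm_one] at h3
      have := norm_nonneg α
      have := norm_nonneg β
      nlinarith
    have hD2 : F * conj F - G * conj G = T * Y * conj Y' := by
      have e1 : conj Y' * Y - conj X' * X = (F * conj F - G * conj G) * (1 - α * conj β) := by
        rw [hY', hX', hX, hY]
        simp only [map_add, map_mul, Complex.conj_conj]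
        ring
      have e2 : conj Y' * Y - conj X' * X = conj Y' * Y * (1 - α * conj β) * T := by
        rw [hXY, hXY', mul_assoc (conj Y' * Y), hT, geom_identity]
        simp only [map_mul, map_neg, map_pow]
        rw [mul_pow]
        ring
      have e3 : (F * conj F - G * conj G) * (1 - α * conj β)
          = (T * Y * conj Y') * (1 - α * conj β) := by
        rw [← e1, e2]; ring
      exact mul_right_cancel₀ hne1 e3
    have hzero : ∀ γ : ℂ, ‖γ‖ < 1 → conj F + γ * conj G = 0 → G + γ * F = 0 → F = 0 ∧ G = 0 := by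
      intro γ hγ h2 h3
      have h4 : ‖F‖ = ‖γ‖ * ‖G‖ := by
        have : conj F = -(γ * conj G) := by linear_combination h2
        rw [← Complex.norm_conj F, this, norm_neg, norm_mul, Complex.norm_conj]
      have h5 : ‖G‖ = ‖γ‖ * ‖F‖ := by
        have : G = -(γ * F) := by linear_combination h3
        rw [this, norm_neg, norm_mul]
      have := norm_nonneg F
      have := norm_nonneg G
      have := norm_nonneg γ
      have h6 : ‖F‖ = 0 := by nlinarith
      have h7 : ‖G‖ = 0 := by nlinarith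
      exact ⟨norm_eq_zero.1 h6, norm_eq_zero.1 h7⟩
    by_cases hY0 : Y = 0
    · exact hzero α hα hY0 (by rw [← hX, hXY, hY0, mul_zero])
    by_cases hY0' : Y' = 0
    · exact hzero β hβ hY0' (by rw [← hX', hXY', hY0', mul_zero])
    exfalso
    have h8 := hD1.symm.trans hD2
    have h9 := congrArg norm h8
    rw [norm_mul, norm_mul, norm_mul, norm_mul, norm_neg, Complex.norm_conj] at h9
    have h10 : 0 < ‖Y‖ := norm_pos_iff.2 hY0
    have h11 : 0 < ‖Y'‖ := norm_pos_iff.2 hY0'
    have h12 := strict_SP hm hα hβ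
    rw [← hT] at h12
    have h13 : ‖S m α β‖ * ‖Y‖ * ‖Y'‖ < ‖T‖ * ‖Y‖ * ‖Y'‖ := by gcongr
    linarith

end Pool.N250.TwoEll
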