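import Mathlib
import Pool.Agent.N250.TwoEll.Alg

open Finset ComplexConjugate Filter Topology Bornology

namespace Pool.N250.TwoEll

/-- an entire function of polynomial growth is a polynomial -/
lemma poly_of_growth {f : ℂ → ℂ} (hf : Differentiable ℂ f) {C : ℝ} {D : ℕ}
    (h : ∀ z, ‖f z‖ ≤ C * max 1 ‖z‖ ^ D) :
    ∃ a : ℕ → ℂ, (∀ k, D < k → a k = 0) ∧ (∀ z, f z = ∑ k ∈ range (D + 1), a k * z ^ k) ∧
      a 0 = f 0 ∧ a 1 = deriv f 0 := by
  have hC : 0 ≤ C := by
    have := h 0
    simp at this
    exact (norm_nonneg _).trans this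
  refine ⟨fun k => ((k.factorial : ℂ))⁻¹ * iteratedDeriv k f 0, ?_, ?_, by simp, by simp⟩
  · intro k hk
    have hlim : Tendsto (fun R : ℝ => k.factorial * (C * R ^ D) / R ^ k) atTop (𝓝 0) := by
      have h1 : Tendsto (fun R : ℝ => k.factorial * C * (R ^ (k - D))⁻¹) atTop
          (𝓝 (k.factorial * C * 0)) := by
        apply Tendsto.const_mul
        exact (tendsto_pow_atTop (by omega)).inv_tendsto_atTop
      rw [mul_zero] at h1
      refine h1.congr' ?_
      filter_upwards [eventually_gt_atTop 0] with R hR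
      have : R ^ k = R ^ (k - D) * R ^ D := by
        rw [← pow_add]; congr 1; omega
      rw [this]
      field_simp
    have h2 : ‖iteratedDeriv k f 0‖ ≤ 0 := by
      refine ge_of_tendsto hlim ?_
      filter_upwards [eventually_ge_atTop 1] with R hR
      refine Complex.norm_iteratedDeriv_le_of_forall_mem_sphere_norm_le k (by linarith)
        hf.diffContOnCl ?_
      intro z hz
      rw [mem_sphere_zero_iff_norm] at hz
      have := h z
      rw [hz, max_eq_right hR] at this
      exact this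
    have h3 : iteratedDeriv k f 0 = 0 := norm_eq_zero.1 (le_antisymm h2 (norm_nonneg _))
    simp [h3]
  · intro z
    have h4 : ∀ k, D < k → iteratedDeriv k f 0 = 0 := by
      intro k hk
      have hlim : Tendsto (fun R : ℝ => k.factorial * (C * R ^ D) / R ^ k) atTop (𝓝 0) := by
        have h1 : Tendsto (fun R : ℝ => k.factorial * C * (R ^ (k - D))⁻¹) atTop
            (𝓝 (k.factorial * C * 0)) := by
          apply Tendsto.const_mul
          exact (tendsto_pow_atTop (by omega)).inv_tendsto_atTop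
        rw [mul_zero] at h1
        refine h1.congr' ?_
        filter_upwards [eventually_gt_atTop 0] with R hR
        have : R ^ k = R ^ (k - D) * R ^ D := by
          rw [← pow_add]; congr 1; omega
        rw [this]
        field_simp
      have h2 : ‖iteratedDeriv k f 0‖ ≤ 0 := by
        refine ge_of_tendsto hlim ?_
        filter_upwards [eventually_ge_atTop 1] with R hR
        refine Complex.norm_iteratedDeriv_le_of_forall_mem_sphere_norm_le k (by linarith)
          hf.diffContOnCl ?_
        intro z hz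
        rw [mem_sphere_zero_iff_norm] at hz
        have := h z
        rw [hz, max_eq_right hR] at this
        exact this
      exact norm_eq_zero.1 (le_antisymm h2 (norm_nonneg _))
    have h5 := Complex.taylorSeries_eq_of_entire' 0 z hf
    rw [← h5, tsum_eq_sum (s := range (D + 1))]
    · apply sum_congr rfl
      intro k _
      simp only [sub_zero]
    · intro k hk
      rw [mem_range, not_lt] at hk
      rw [h4 k (by omega)]
      simp

/-- scaling induction -/
lemma growth_induction {Q : ℂ → ℝ} (hQc : Continuous Q) {K R ε : ℝ} (hε0 : 0 < ε) (hε1 : ε < 1)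
    (_hK : 0 ≤ K)
    (hstep : ∀ z : ℂ, R ≤ ‖z‖ → ∀ B, 0 ≤ B → (∀ ξ : ℂ, ‖ξ‖ ≤ ε * ‖z‖ → Q ξ ≤ B) → Q z ≤ K * B) :
    ∃ (C : ℝ) (D : ℕ), 0 ≤ C ∧ ∀ z, Q z ≤ C * max 1 ‖z‖ ^ D := by
  obtain ⟨D, hD⟩ : ∃ D : ℕ, K * ε ^ D ≤ 1 := by
    have h1 : Tendsto (fun n : ℕ => K * ε ^ n) atTop (𝓝 (K * 0)) :=
      (tendsto_pow_atTop_nhds_zero_of_lt_one hε0.le hε1).const_mul K
    rw [mul_zero] at h1
    exact ((h1.eventually (gt_mem_nhds zero_lt_one)).exists).imp (fun _ h => h.le)
  set R' := max (max R 1) (1 / ε) with hR'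
  have hR'1 : 1 ≤ R' := (le_max_right R 1).trans (le_max_left _ _)
  have hR'R : R ≤ R' := (le_max_left R 1).trans (le_max_left _ _)
  have hR'ε : 1 / ε ≤ R' := le_max_right _ _
  obtain ⟨C0, hC0⟩ := (isCompact_closedBall (0 : ℂ) R').exists_bound_of_continuousOn hQc.continuousOn
  have hbase : ∀ z : ℂ, ‖z‖ ≤ R' → Q z ≤ max C0 0 := by
    intro z hz
    have := hC0 z (by simpa using hz)
    exact (le_abs_self _).trans (this.trans (le_max_left _ _))
  refine ⟨max C0 0, D, le_max_right _ _, ?_⟩
  have hC : 0 ≤ max C0 0 := le_max_right _ _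
  set C := max C0 0 with hCdef
  have hind : ∀ n : ℕ, ∀ z : ℂ, ‖z‖ ≤ R' * (1 / ε) ^ n → Q z ≤ C * max 1 ‖z‖ ^ D := by
    intro n
    induction n with
    | zero =>
      intro z hz
      rw [pow_zero, mul_one] at hz
      refine (hbase z hz).trans ?_
      have : (1 : ℝ) ≤ max 1 ‖z‖ ^ D := one_le_pow₀ (le_max_left _ _)
      nlinarith
    | succ n ih =>
      intro z hz
      rcases le_total ‖z‖ R' with h | h
      · refine (hbase z h).trans ?_
        have : (1 : ℝ) ≤ max 1 ‖z‖ ^ D := one_le_pow₀ (le_max_left _ _)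
        nlinarith
      · have h1 : 1 ≤ ε * ‖z‖ := by
          have : 1 / ε ≤ ‖z‖ := hR'ε.trans h
          rw [div_le_iff₀ hε0] at this
          linarith
        have h2 : Q z ≤ K * (C * (ε * ‖z‖) ^ D) := by
          apply hstep z (hR'R.trans h) _ (by positivity)
          intro ξ hξ
          have h3 : ‖ξ‖ ≤ R' * (1 / ε) ^ n := by
            refine hξ.trans ?_
            rw [pow_succ] at hz
            calc ε * ‖z‖ ≤ ε * (R' * ((1 / ε) ^ n * (1 / ε))) := by gcongr
              _ = R' * (1 / ε) ^ n := by field_simp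
          refine (ih ξ h3).trans ?_
          have h4 : max 1 ‖ξ‖ ≤ ε * ‖z‖ := max_le h1 hξ
          gcongr
        refine h2.trans ?_
        rw [mul_pow, max_eq_right (hR'1.trans h)]
        have h5 : 0 ≤ C * ‖z‖ ^ D := by positivity
        calc K * (C * (ε ^ D * ‖z‖ ^ D)) = (K * ε ^ D) * (C * ‖z‖ ^ D) := by ring
          _ ≤ 1 * (C * ‖z‖ ^ D) := by gcongr
          _ = C * ‖z‖ ^ D := one_mul _
  intro z
  obtain ⟨n, hn⟩ := pow_unbounded_of_one_lt ‖z‖ (show 1 < 1 / ε by rw [lt_div_iff₀ hε0]; linarith)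
  apply hind n z
  have : 0 < (1 / ε) ^ n := by positivity
  nlinarith

end Pool.N250.TwoEll
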