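import Mathlib
import Pool.Agent.N250.TwoEll.Growth

open Finset ComplexConjugate Filter Topology Bornology

namespace Pool.N250.TwoEll

lemma lim_sum {l : Filter ℂ} (hl : Tendsto (fun z : ℂ => z⁻¹) l (𝓝 0)) (hz : ∀ᶠ z : ℂ in l, z ≠ 0)
    (φ : ℕ → ℂ → ℂ) (L : ℕ → ℂ) (h : ∀ k, Tendsto (fun z => φ k z / z ^ k) l (𝓝 (L k)))
    (c : ℕ → ℂ) (m : ℕ) :
    Tendsto (fun z => (∑ k ∈ range (m + 1), c k * φ k z) / z ^ m) l (𝓝 (c m * L m)) := by
  have h1 : Tendsto (fun z => (∑ k ∈ range m, c k * (φ k z / z ^ k) * (z⁻¹) ^ (m - k))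
      + c m * (φ m z / z ^ m)) l (𝓝 ((∑ k ∈ range m, c k * L k * 0) + c m * L m)) := by
    apply Tendsto.add
    · apply tendsto_finsetSum
      intro k hk
      rw [mem_range] at hk
      apply Tendsto.mul
      · exact (h k).const_mul _
      · have := hl.pow (m - k)
        rwa [zero_pow (by omega)] at this
    · exact (h m).const_mul _
  simp only [mul_zero, sum_const_zero, zero_add] at h1
  refine h1.congr' ?_
  filter_upwards [hz] with z hz0
  rw [sum_range_succ, add_div, mul_div_assoc]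
  congr 1
  rw [sum_div]
  apply sum_congr rfl
  intro k hk
  rw [mem_range] at hk
  have : z ^ m = z ^ k * z ^ (m - k) := by
    rw [← pow_add]; congr 1; omega
  rw [this, inv_pow]
  field_simp

lemma S_homog (k : ℕ) {z : ℂ} (hz : z ≠ 0) (x y : ℂ) :
    z * S k x y / z ^ k = S k (x / z) (y / z) := by
  unfold S
  rw [mul_sum, sum_div]
  apply sum_congr rfl
  intro i hi
  rw [mem_range] at hi
  rw [div_pow, div_pow]
  have : z ^ k = z * (z ^ i * z ^ (k - 1 - i)) := by
    rw [← pow_add, ← pow_succ']; congr 1; omega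
  rw [this]
  field_simp

lemma S_cont (k : ℕ) {l : Filter ℂ} {u v : ℂ → ℂ} {a b : ℂ} (hu : Tendsto u l (𝓝 a))
    (hv : Tendsto v l (𝓝 b)) : Tendsto (fun z => S k (u z) (v z)) l (𝓝 (S k a b)) := by
  unfold S
  apply tendsto_finsetSum
  intro i _
  exact (hu.pow i).mul (hv.pow _)

section core
variable {f g : ℂ → ℂ} (hf : Differentiable ℂ f) (hg : Differentiable ℂ g)
  {w1 w2 : ℂ → ℂ} {α1 α2 : ℂ} (hα1 : ‖α1‖ < 1) (hα2 : ‖α2‖ < 1)
  (hw1 : Tendsto (fun z => w1 z / z) (cobounded ℂ) (𝓝 α1))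
  (hw2 : Tendsto (fun z => w2 z / z) (cobounded ℂ) (𝓝 α2))
  (hne : ∀ᶠ z in cobounded ℂ, w1 z ≠ w2 z)
  (h1 : ∀ᶠ z in cobounded ℂ,
    w1 z * f z + g z + z * conj (f (conj (w1 z))) + conj (g (conj (w1 z))) = 0)
  (h2 : ∀ᶠ z in cobounded ℂ,
    w2 z * f z + g z + z * conj (f (conj (w2 z))) + conj (g (conj (w2 z))) = 0)

include hf hg hα1 hα2 hw1 hw2 hne h1 h2 in
lemma core_growth : ∃ (C : ℝ) (D : ℕ), 0 ≤ C ∧
    ∀ z, ‖f z‖ + ‖g z‖ / (1 + ‖z‖) ≤ C * max 1 ‖z‖ ^ D := by
  set ε0 := (1 + max ‖α1‖ ‖α2‖) / 2 with hε0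
  have hm : max ‖α1‖ ‖α2‖ < 1 := max_lt hα1 hα2
  have hm0 : 0 ≤ max ‖α1‖ ‖α2‖ := (norm_nonneg _).trans (le_max_left _ _)
  have hε0a : ‖α1‖ < ε0 := by
    have := le_max_left ‖α1‖ ‖α2‖
    rw [hε0]; linarith
  have hε0b : ‖α2‖ < ε0 := by
    have := le_max_right ‖α1‖ ‖α2‖
    rw [hε0]; linarith
  have hε01 : ε0 < 1 := by rw [hε0]; linarith
  have hε00 : 0 < ε0 := by rw [hε0]; linarith
  set δ := (1 - ε0) / 2 with hδ
  have hδ0 : 0 < δ := by rw [hδ]; linarith
  have hδ1 : δ < 1 := by rw [hδ]; linarith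
  have hw1' : ∀ᶠ z in cobounded ℂ, ‖w1 z / z‖ < ε0 := hw1.norm.eventually (gt_mem_nhds hε0a)
  have hw2' : ∀ᶠ z in cobounded ℂ, ‖w2 z / z‖ < ε0 := hw2.norm.eventually (gt_mem_nhds hε0b)
  have hall := (((hw1'.and hw2').and hne).and (h1.and h2))
  rw [(hasBasis_cobounded_norm (E := ℂ)).eventually_iff] at hall
  obtain ⟨R, -, hR⟩ := hall
  set fs : ℂ → ℂ := fun w => conj (f (conj w)) with hfs
  set gs : ℂ → ℂ := fun w => conj (g (conj w)) with hgs
  have hfsd : Differentiable ℂ fs := fun w => by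
    have := (hf (conj w)).conj_conj
    rw [Complex.conj_conj] at this
    exact this
  have hgsd : Differentiable ℂ gs := fun w => by
    have := (hg (conj w)).conj_conj
    rw [Complex.conj_conj] at this
    exact this
  have hlip : ∀ (h : ℂ → ℂ), Differentiable ℂ h → ∀ (r B : ℝ), 0 < r → 
      (∀ ξ : ℂ, ‖ξ‖ ≤ (ε0 + δ) * r → ‖h ξ‖ ≤ B) → ∀ x y : ℂ, ‖x‖ ≤ ε0 * r → ‖y‖ ≤ ε0 * r →
      ‖h x - h y‖ ≤ B / (δ * r) * ‖x - y‖ := by
    intro h hh r B hr hB x y hx hy
    refine (convex_closedBall (0 : ℂ) (ε0 * r)).norm_image_sub_le_of_norm_deriv_le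
      (fun ξ _ => hh ξ) (fun ξ hξ => ?_) (by simpa using hy) (by simpa using hx)
    rw [mem_closedBall_zero_iff] at hξ
    refine Complex.norm_deriv_le_of_forall_mem_sphere_norm_le (by positivity) hh.diffContOnCl
      (fun ζ hζ => hB ζ ?_)
    rw [mem_sphere_iff_norm] at hζ
    have : ‖ζ‖ ≤ ‖ζ - ξ‖ + ‖ξ‖ := by
      have := norm_add_le (ζ - ξ) ξ
      simpa using this
    rw [hζ] at this
    linarith
  have hcont : Continuous (fun z => ‖f z‖ + ‖g z‖ / (1 + ‖z‖)) := by
    apply Continuous.add hf.continuous.norm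
    apply hg.continuous.norm.div (by fun_prop)
    intro z
    positivity
  refine growth_induction (Q := fun z => ‖f z‖ + ‖g z‖ / (1 + ‖z‖)) (K := 6 / δ + 2)
    (R := max R 1) (ε := ε0 + δ) hcont (by positivity) (by rw [hδ]; linarith) (by positivity) ?_
  intro z hz B hB0 hB
  have hzR : R ≤ ‖z‖ := (le_max_left _ _).trans hz
  have hz1 : 1 ≤ ‖z‖ := (le_max_right _ _).trans hz
  have hz0 : 0 < ‖z‖ := by linarith
  obtain ⟨⟨⟨ha, hb⟩, hc⟩, hd, he⟩ := hR hzR
  rw [norm_div, div_lt_iff₀ hz0] at ha hb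
  have hfB : ∀ ξ : ℂ, ‖ξ‖ ≤ (ε0 + δ) * ‖z‖ → ‖fs ξ‖ ≤ B := by
    intro ξ hξ
    have := hB (conj ξ) (by rwa [Complex.norm_conj])
    have h5 : 0 ≤ ‖g (conj ξ)‖ / (1 + ‖conj ξ‖) := by positivity
    simp only [hfs, Complex.norm_conj]
    linarith
  have hε'1 : ε0 + δ < 1 := by rw [hδ]; linarith
  have hgB : ∀ ξ : ℂ, ‖ξ‖ ≤ (ε0 + δ) * ‖z‖ → ‖gs ξ‖ ≤ (1 + ‖z‖) * B := by
    intro ξ hξ
    have := hB (conj ξ) (by rwa [Complex.norm_conj])
    have h5 : 0 ≤ ‖f (conj ξ)‖ := by positivity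
    simp only [hgs, Complex.norm_conj]
    rw [Complex.norm_conj] at this
    have h6 : ‖g (conj ξ)‖ / (1 + ‖ξ‖) ≤ B := by linarith
    rw [div_le_iff₀ (by positivity)] at h6
    have h7 : ‖ξ‖ ≤ ‖z‖ := by nlinarith
    nlinarith
  have hF := hlip fs hfsd ‖z‖ B hz0 hfB (w1 z) (w2 z) ha.le hb.le
  have hG := hlip gs hgsd ‖z‖ ((1 + ‖z‖) * B) hz0 hgB (w1 z) (w2 z) ha.le hb.le
  have hd' : w1 z * f z + g z + z * fs (w1 z) + gs (w1 z) = 0 := hd
  have he' : w2 z * f z + g z + z * fs (w2 z) + gs (w2 z) = 0 := he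
  have hsub : f z * (w1 z - w2 z) = -(z * (fs (w1 z) - fs (w2 z)) + (gs (w1 z) - gs (w2 z))) := by
    linear_combination hd' - he'
  have hpos : 0 < ‖w1 z - w2 z‖ := norm_pos_iff.2 (sub_ne_zero.2 hc)
  have hfz : ‖f z‖ ≤ 3 * B / δ := by
    have h8 : ‖f z‖ * ‖w1 z - w2 z‖ ≤ (3 * B / δ) * ‖w1 z - w2 z‖ := by
      rw [← norm_mul, hsub, norm_neg]
      refine (norm_add_le _ _).trans ?_
      rw [norm_mul]
      calc ‖z‖ * ‖fs (w1 z) - fs (w2 z)‖ + ‖gs (w1 z) - gs (w2 z)‖
          ≤ ‖z‖ * (B / (δ * ‖z‖) * ‖w1 z - w2 z‖)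
            + (1 + ‖z‖) * B / (δ * ‖z‖) * ‖w1 z - w2 z‖ := by gcongr
        _ ≤ ‖z‖ * (B / (δ * ‖z‖) * ‖w1 z - w2 z‖)
            + (2 * ‖z‖) * B / (δ * ‖z‖) * ‖w1 z - w2 z‖ := by
            gcongr
            linarith
        _ = (3 * B / δ) * ‖w1 z - w2 z‖ := by field_simp; ring
    exact le_of_mul_le_mul_right h8 hpos
  have hgz : ‖g z‖ ≤ ‖z‖ * (3 * B / δ) + ‖z‖ * B + (1 + ‖z‖) * B := by
    have h9 : g z = -(w1 z * f z + z * fs (w1 z) + gs (w1 z)) := by linear_combination hd'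
    have hwb : ‖w1 z‖ ≤ (ε0 + δ) * ‖z‖ := by nlinarith
    have hwb' : ‖w1 z‖ ≤ ‖z‖ := by nlinarith
    rw [h9, norm_neg]
    refine (norm_add_le _ _).trans ?_
    refine add_le_add ((norm_add_le _ _).trans ?_) (hgB _ hwb)
    rw [norm_mul, norm_mul]
    exact add_le_add (mul_le_mul hwb' hfz (norm_nonneg _) (norm_nonneg _))
      (mul_le_mul_of_nonneg_left (hfB _ hwb) (norm_nonneg _))
  have h10 : ‖g z‖ / (1 + ‖z‖) ≤ 3 * B / δ + 2 * B := by
    rw [div_le_iff₀ (by positivity)]
    refine hgz.trans ?_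
    have : 0 ≤ 3 * B / δ := by positivity
    nlinarith
  calc ‖f z‖ + ‖g z‖ / (1 + ‖z‖) ≤ 3 * B / δ + (3 * B / δ + 2 * B) := add_le_add hfz h10
    _ = (6 / δ + 2) * B := by ring

include hf hg hα1 hα2 hw1 hw2 hne h1 h2 in
theorem core (hf0 : f 0 = 0) (hf1 : (deriv f 0).im = 0) :
    (∀ z, f z = 0) ∧ (∀ z, g z = g 0) ∧ (g 0).re = 0 := by
  obtain ⟨C, D, hC, hQ⟩ := core_growth hf hg hα1 hα2 hw1 hw2 hne h1 h2
  have hfg : ∀ z, ‖f z‖ ≤ C * max 1 ‖z‖ ^ D := by
    intro z
    have := hQ z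
    have h3 : 0 ≤ ‖g z‖ / (1 + ‖z‖) := by positivity
    linarith
  have hgg : ∀ z, ‖g z‖ ≤ (2 * C) * max 1 ‖z‖ ^ (D + 1) := by
    intro z
    have := hQ z
    have h3 : 0 ≤ ‖f z‖ := by positivity
    have h4 : ‖g z‖ / (1 + ‖z‖) ≤ C * max 1 ‖z‖ ^ D := by linarith
    rw [div_le_iff₀ (by positivity)] at h4
    refine h4.trans ?_
    have h5 : 1 + ‖z‖ ≤ 2 * max 1 ‖z‖ := by
      have := le_max_left 1 ‖z‖
      have := le_max_right 1 ‖z‖
      linarith
    rw [pow_succ]
    have h6 : 0 ≤ C * max 1 ‖z‖ ^ D := by positivity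
    nlinarith
  obtain ⟨a, ha, haf, ha0, ha1⟩ := poly_of_growth hf hfg
  obtain ⟨b, hb, hbg, -, -⟩ := poly_of_growth hg hgg
  have hcob : Tendsto (fun z : ℂ => z⁻¹) (cobounded ℂ) (𝓝 0) := tendsto_inv₀_cobounded
  have hcz : ∀ᶠ z : ℂ in cobounded ℂ, z ≠ 0 := eventually_ne_cobounded 0
  have hwpow : ∀ k : ℕ, Tendsto (fun z => (w1 z) ^ k / z ^ k) (cobounded ℂ) (𝓝 (α1 ^ k)) := by
    intro k
    simpa only [← div_pow] using hw1.pow k
  have hzpow : ∀ k : ℕ, Tendsto (fun z : ℂ => z ^ k / z ^ k) (cobounded ℂ) (𝓝 1) := by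
    intro k
    refine (tendsto_const_nhds (x := (1 : ℂ))).congr' ?_
    filter_upwards [hcz] with z hz
    rw [div_self (pow_ne_zero _ hz)]
  have hSlim : ∀ k : ℕ, Tendsto (fun z => (z * S k (w1 z) (w2 z)) / z ^ k) (cobounded ℂ)
      (𝓝 (S k α1 α2)) := by
    intro k
    refine (S_cont k hw1 hw2).congr' ?_
    filter_upwards [hcz] with z hz
    rw [S_homog k hz]
  have key : ∀ n : ℕ, ((∀ k, n ≤ k → a k = 0) ∧ (∀ k, n + 1 ≤ k → b k = 0)) →
      ((∀ k, a k = 0) ∧ (∀ k, 1 ≤ k → b k = 0)) := by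
    intro n
    induction n with
    | zero => intro h; exact ⟨fun k => h.1 k (Nat.zero_le _), h.2⟩
    | succ m ih =>
      intro ⟨hA, hB⟩
      have hfe : ∀ z, f z = ∑ k ∈ range (m + 1), a k * z ^ k := by
        intro z
        rw [haf z]
        rcases le_total D m with h | h
        · apply sum_subset (range_subset_range.2 (by omega))
          intro k _ hk
          rw [mem_range, not_lt] at hk
          rw [ha k (by omega), zero_mul]
        · symm
          apply sum_subset (range_subset_range.2 (by omega))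
          intro k _ hk
          rw [mem_range, not_lt] at hk
          rw [hA k hk, zero_mul]
      have hge : ∀ z, g z = ∑ k ∈ range (m + 1 + 1), b k * z ^ k := by
        intro z
        rw [hbg z]
        rcases le_total D m with h | h
        · apply sum_subset (range_subset_range.2 (by omega))
          intro k _ hk
          rw [mem_range, not_lt] at hk
          rw [hb k (by omega), zero_mul]
        · symm
          apply sum_subset (range_subset_range.2 (by omega))
          intro k _ hk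
          rw [mem_range, not_lt] at hk
          rw [hB k hk, zero_mul]
      have hfse : ∀ w, conj (f (conj w)) = ∑ k ∈ range (m + 1), conj (a k) * w ^ k := by
        intro w
        rw [hfe, map_sum]
        apply sum_congr rfl
        intro k _
        simp
      have hgse : ∀ w, conj (g (conj w)) = ∑ k ∈ range (m + 1 + 1), conj (b k) * w ^ k := by
        intro w
        rw [hge, map_sum]
        apply sum_congr rfl
        intro k _
        simp
      have T1 := lim_sum hcob hcz (fun k z => z ^ k) (fun _ => 1) hzpow a m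
      have T2 := lim_sum hcob hcz (fun k z => z ^ k) (fun _ => 1) hzpow b (m + 1)
      have T3 := lim_sum hcob hcz (fun k z => (w1 z) ^ k) (fun k => α1 ^ k) hwpow
        (fun k => conj (a k)) m
      have T4 := lim_sum hcob hcz (fun k z => (w1 z) ^ k) (fun k => α1 ^ k) hwpow
        (fun k => conj (b k)) (m + 1)
      have T5 := lim_sum hcob hcz (fun k z => z * S k (w1 z) (w2 z)) (fun k => S k α1 α2) hSlim
        (fun k => conj (a k)) m
      have T6 := lim_sum hcob hcz (fun k z => z * S k (w1 z) (w2 z)) (fun k => S k α1 α2) hSlim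
        (fun k => conj (b k)) (m + 1)
      have E1 : α1 * a m + b (m + 1) + conj (a m) * α1 ^ m + conj (b (m + 1)) * α1 ^ (m + 1)
          = 0 := by
        have hlim := ((hw1.mul T1).add T2).add (T3.add T4)
        have hz : ∀ᶠ z in cobounded ℂ, w1 z / z * ((∑ k ∈ range (m + 1), a k * z ^ k) / z ^ m)
            + (∑ k ∈ range (m + 1 + 1), b k * z ^ k) / z ^ (m + 1)
            + ((∑ k ∈ range (m + 1), conj (a k) * (w1 z) ^ k) / z ^ m
            + (∑ k ∈ range (m + 1 + 1), conj (b k) * (w1 z) ^ k) / z ^ (m + 1)) = 0 := by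
          filter_upwards [h1, hcz] with z hz1 hz0
          rw [hfse, hgse, hfe, hge] at hz1
          rw [pow_succ z m]
          have hzm : z ^ m ≠ 0 := pow_ne_zero _ hz0
          field_simp
          linear_combination hz1
        have := tendsto_nhds_unique (hlim.congr' hz) tendsto_const_nhds
        linear_combination this
      have E2 : a m + conj (a m) * S m α1 α2 + conj (b (m + 1)) * S (m + 1) α1 α2 = 0 := by
        have hlim := (T1.add T5).add T6
        have hz : ∀ᶠ z in cobounded ℂ, (∑ k ∈ range (m + 1), a k * z ^ k) / z ^ m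
            + (∑ k ∈ range (m + 1), conj (a k) * (z * S k (w1 z) (w2 z))) / z ^ m
            + (∑ k ∈ range (m + 1 + 1), conj (b k) * (z * S k (w1 z) (w2 z))) / z ^ (m + 1)
            = 0 := by
          filter_upwards [h1, h2, hne, hcz] with z hz1 hz2 hz3 hz0
          rw [hfse, hgse] at hz1 hz2
          have hd1 : ∑ k ∈ range (m + 1), conj (a k) * (w1 z) ^ k
              - ∑ k ∈ range (m + 1), conj (a k) * (w2 z) ^ k
              = (w1 z - w2 z) * ∑ k ∈ range (m + 1), conj (a k) * S k (w1 z) (w2 z) := by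
            rw [← sum_sub_distrib, mul_sum]
            apply sum_congr rfl
            intro k _
            linear_combination -(conj (a k)) * S_mul k (w1 z) (w2 z)
          have hd2 : ∑ k ∈ range (m + 1 + 1), conj (b k) * (w1 z) ^ k
              - ∑ k ∈ range (m + 1 + 1), conj (b k) * (w2 z) ^ k
              = (w1 z - w2 z) * ∑ k ∈ range (m + 1 + 1), conj (b k) * S k (w1 z) (w2 z) := by
            rw [← sum_sub_distrib, mul_sum]
            apply sum_congr rfl
            intro k _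
            linear_combination -(conj (b k)) * S_mul k (w1 z) (w2 z)
          have hd3 : (w1 z - w2 z) * (f z
              + z * ∑ k ∈ range (m + 1), conj (a k) * S k (w1 z) (w2 z)
              + ∑ k ∈ range (m + 1 + 1), conj (b k) * S k (w1 z) (w2 z)) = 0 := by
            linear_combination hz1 - hz2 - z * hd1 - hd2
          have hd4 := (mul_eq_zero.1 hd3).resolve_left (sub_ne_zero.2 hz3)
          have hd5 : ∑ k ∈ range (m + 1), conj (a k) * (z * S k (w1 z) (w2 z))
              = z * ∑ k ∈ range (m + 1), conj (a k) * S k (w1 z) (w2 z) := by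
            rw [mul_sum]
            apply sum_congr rfl
            intro k _
            ring
          have hd6 : ∑ k ∈ range (m + 1 + 1), conj (b k) * (z * S k (w1 z) (w2 z))
              = z * ∑ k ∈ range (m + 1 + 1), conj (b k) * S k (w1 z) (w2 z) := by
            rw [mul_sum]
            apply sum_congr rfl
            intro k _
            ring
          rw [hd5, hd6, ← hfe, pow_succ z m]
          have hzm : z ^ m ≠ 0 := pow_ne_zero _ hz0
          field_simp
          linear_combination hd4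
        have := tendsto_nhds_unique (hlim.congr' hz) tendsto_const_nhds
        linear_combination this
      have hres := alg (m := m) (α := α1) (β := α2) (F := a m) (G := b (m + 1)) hα1 hα2
        (by intro h; subst h; rw [ha0, hf0]) (by intro h; subst h; rw [ha1, hf1]) E1 E2
      apply ih
      constructor
      · intro k hk
        rcases eq_or_lt_of_le hk with rfl | hk'
        · exact hres.1
        · exact hA k hk'
      · intro k hk
        rcases eq_or_lt_of_le hk with rfl | hk'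
        · exact hres.2
        · exact hB k hk'
  obtain ⟨hA, hB⟩ := key (D + 1) ⟨fun k hk => ha k (by omega), fun k hk => hb k (by omega)⟩
  have hfz : ∀ z, f z = 0 := by
    intro z
    rw [haf z]
    apply sum_eq_zero
    intro k _
    rw [hA k, zero_mul]
  have hgz : ∀ z, g z = b 0 := by
    intro z
    rw [hbg z, sum_range_succ', sum_eq_zero]
    · simp
    · intro k _
      rw [hB (k + 1) (by omega), zero_mul]
  refine ⟨hfz, fun z => by rw [hgz z, hgz 0], ?_⟩
  obtain ⟨z, hz⟩ := h1.exists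
  rw [hfz, hfz, hgz, hgz] at hz
  have := congrArg Complex.re hz
  simp at this
  rw [hgz 0]
  linarith

end core

end Pool.N250.TwoEll
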