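import Mathlib
import Pool.Agent.N250.TwoEll.Core

open Finset ComplexConjugate Filter Topology Bornology

namespace Pool.N250.TwoEll

/-- parametrized ellipse -/
def par (c a b : ℂ) : Set ℂ := {z | ∃ t : ℂ, ‖t‖ = 1 ∧ z = c + a * t + b * conj t}

/-- ellipse given by a positive definite quadratic form -/
lemma exists_par (c : ℂ) {p q r : ℝ} (hp : 0 < p) (hd : 0 < p * r - q ^ 2) :
    ∃ a b : ℂ, ‖b‖ < ‖a‖ ∧
      {z : ℂ | p * (z.re - c.re) ^ 2 + 2 * q * (z.re - c.re) * (z.im - c.im)
        + r * (z.im - c.im) ^ 2 = 1} = par c a b := by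
  set sp := Real.sqrt p with hsp
  have hsp0 : 0 < sp := Real.sqrt_pos.2 hp
  have hsp2 : sp ^ 2 = p := Real.sq_sqrt hp.le
  have hdp : 0 < (p * r - q ^ 2) / p := div_pos hd hp
  set s := Real.sqrt ((p * r - q ^ 2) / p) with hs
  have hs0 : 0 < s := Real.sqrt_pos.2 hdp
  have hs2 : s ^ 2 = (p * r - q ^ 2) / p := Real.sq_sqrt hdp.le
  have hs2' : p * s ^ 2 = p * r - q ^ 2 := by rw [hs2]; field_simp
  refine ⟨⟨(1 / sp + 1 / s) / 2, q / (p * s) / 2⟩, ⟨(1 / sp - 1 / s) / 2, -(q / (p * s)) / 2⟩, ?_, ?_⟩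
  · have h1 : (0 : ℝ) < 1 / sp := by positivity
    have h2 : (0 : ℝ) < 1 / s := by positivity
    apply lt_of_pow_lt_pow_left₀ 2 (norm_nonneg _)
    rw [← Complex.normSq_eq_norm_sq, ← Complex.normSq_eq_norm_sq, Complex.normSq_mk,
      Complex.normSq_mk]
    nlinarith [mul_pos h1 h2]
  · ext z
    simp only [par, Set.mem_ofPred_eq]
    constructor
    · intro hz
      set x := z.re - c.re with hx
      set y := z.im - c.im with hy
      refine ⟨⟨sp * x + q / sp * y, s * y⟩, ?_, ?_⟩
      · have : ‖(⟨sp * x + q / sp * y, s * y⟩ : ℂ)‖ ^ 2 = 1 := by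
          rw [← Complex.normSq_eq_norm_sq, Complex.normSq_mk]
          have e : (sp * x + q / sp * y) * (sp * x + q / sp * y) + s * y * (s * y)
              = sp ^ 2 * x ^ 2 + 2 * q * x * y + (q ^ 2 / sp ^ 2 + s ^ 2) * y ^ 2 := by
            field_simp; ring
          rw [e, hsp2]
          have e2 : q ^ 2 / p + s ^ 2 = r := by rw [hs2]; field_simp; ring
          rw [e2]
          linarith
        have h3 := norm_nonneg (⟨sp * x + q / sp * y, s * y⟩ : ℂ)
        nlinarith
      · apply Complex.ext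
        · simp only [Complex.add_re, Complex.mul_re, Complex.conj_re, Complex.conj_im]
          have : z.re = c.re + x := by rw [hx]; ring
          rw [this]
          have hsp3 : sp * sp = p := by rw [← hsp2]; ring
          field_simp
          rw [← hsp3]
          ring
        · simp only [Complex.add_im, Complex.mul_im, Complex.conj_re, Complex.conj_im]
          have : z.im = c.im + y := by rw [hy]; ring
          rw [this]
          have hsp3 : sp * sp = p := by rw [← hsp2]; ring
          field_simp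
          rw [← hsp3]
          ring
    · rintro ⟨t, ht, rfl⟩
      simp only [Complex.add_re, Complex.mul_re, Complex.conj_re, Complex.conj_im,
        Complex.add_im, Complex.mul_im]
      have ht2 : t.re ^ 2 + t.im ^ 2 = 1 := by
        have : ‖t‖ ^ 2 = 1 := by rw [ht]; norm_num
        rw [← Complex.normSq_eq_norm_sq, Complex.normSq_apply] at this
        linarith
      have hsp3 : p = sp * sp := by rw [← hsp2]; ring
      have hr : r = s ^ 2 + q ^ 2 / (sp * sp) := by rw [← hsp3, hs2]; field_simp; ring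
      rw [hr, hsp3]
      refine Eq.trans ?_ ht2
      field_simp
      ring

lemma par_subset {c a1 b1 a2 b2 : ℂ} (ha1 : a1 ≠ 0) (hab : conj b1 / a1 = conj b2 / a2)
    (ha2 : a2 ≠ 0) (hn : ‖a1‖ = ‖a2‖) : par c a2 b2 ⊆ par c a1 b1 := by
  rintro z ⟨t, ht, rfl⟩
  refine ⟨a2 / a1 * t, ?_, ?_⟩
  · rw [norm_mul, norm_div, ht, hn, div_self (norm_ne_zero_iff.2 ha2), one_mul]
  · have h1 : conj b2 * a1 = conj b1 * a2 := by
      field_simp at hab
      linear_combination -hab
    have h2 : b2 * conj a1 = b1 * conj a2 := by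
      have := congrArg conj h1
      simpa using this
    have h3 : conj a1 ≠ 0 := by simpa using ha1
    rw [map_mul, map_div₀]
    field_simp
    linear_combination (conj t) * h2

lemma exists_root (a b ζ : ℂ) (ha : a ≠ 0) (hζ : ζ ≠ 0) :
    ∃ t : ℂ, t ≠ 0 ∧ a * t + b / t = ζ ∧ ‖ζ‖ ≤ 2 * ‖a‖ * ‖t‖ := by
  obtain ⟨s, hs⟩ := IsAlgClosed.exists_pow_nat_eq (ζ ^ 2 - 4 * a * b) (show 0 < 2 by norm_num)
  obtain ⟨s', hs', hn⟩ : ∃ s' : ℂ, s' ^ 2 = ζ ^ 2 - 4 * a * b ∧ ‖ζ‖ ≤ ‖ζ + s'‖ := by
    by_cases h : ‖ζ‖ ≤ ‖ζ + s‖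
    · exact ⟨s, hs, h⟩
    · refine ⟨-s, by rw [neg_sq, hs], ?_⟩
      push Not at h
      have h1 : (ζ + s) + (ζ + -s) = 2 * ζ := by ring
      have h2 := norm_add_le (ζ + s) (ζ + -s)
      rw [h1, norm_mul] at h2
      simp at h2
      have : ζ + -s = ζ - s := by ring
      rw [this] at h2 ⊢
      linarith
  have hne : ζ + s' ≠ 0 := by
    rw [← norm_pos_iff]
    exact (norm_pos_iff.2 hζ).trans_le hn
  refine ⟨(ζ + s') / (2 * a), div_ne_zero hne (mul_ne_zero two_ne_zero ha), ?_, ?_⟩
  · field_simp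
    linear_combination hs'
  · rw [norm_div, norm_mul]
    have : 0 < ‖a‖ := norm_pos_iff.2 ha
    simp only [Complex.norm_ofNat]
    field_simp
    exact hn

/-- the functional equation on the complexified ellipse -/
lemma func_eq {f g : ℂ → ℂ} (hf : Differentiable ℂ f) (hg : Differentiable ℂ g) {c a b : ℂ}
    (h : ∀ z ∈ par c a b, (conj z * f z + g z).re = 0) {t : ℂ} (ht : t ≠ 0) :
    (conj c + conj a / t + conj b * t) * f (c + a * t + b / t) + g (c + a * t + b / t)
      + (c + a * t + b / t) * conj (f (conj (conj c + conj a / t + conj b * t)))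
      + conj (g (conj (conj c + conj a / t + conj b * t))) = 0 := by
  set fs : ℂ → ℂ := fun w => conj (f (conj w)) with hfs
  set gs : ℂ → ℂ := fun w => conj (g (conj w)) with hgs
  have hfsd : Differentiable ℂ fs := fun w => by
    have := (hf (conj w)).conj_conj
    rw [Complex.conj_conj] at this
    exact this
  have hgsd : Differentiable ℂ gs := fun w => by
    have := (hg (conj w)).conj_conj
    rw [Complex.conj_conj] at this
    exact this
  set Z : ℂ → ℂ := fun s => c + a * Complex.exp (s * Complex.I) + b * Complex.exp (-(s * Complex.I))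
    with hZ
  set W : ℂ → ℂ := fun s => conj c + conj a * Complex.exp (-(s * Complex.I))
    + conj b * Complex.exp (s * Complex.I) with hW
  have hZd : Differentiable ℂ Z := by rw [hZ]; fun_prop
  have hWd : Differentiable ℂ W := by rw [hW]; fun_prop
  set Ψ : ℂ → ℂ := fun s => W s * f (Z s) + g (Z s) + Z s * fs (W s) + gs (W s) with hΨ
  have hΨd : Differentiable ℂ Ψ :=
    ((hWd.mul (hf.comp hZd)).add (hg.comp hZd)).add (hZd.mul (hfsd.comp hWd))
      |>.add (hgsd.comp hWd)
  have hreal : ∀ s : ℝ, Ψ s = 0 := by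
    intro s
    have he : conj (Complex.exp ((s : ℂ) * Complex.I)) = Complex.exp (-((s : ℂ) * Complex.I)) := by
      rw [← Complex.exp_conj]
      congr 1
      simp
    have hWZ : W s = conj (Z s) := by
      simp only [hW, hZ, map_add, map_mul, he]
      have he' : conj (Complex.exp (-((s : ℂ) * Complex.I))) = Complex.exp ((s : ℂ) * Complex.I) := by
        rw [← he, Complex.conj_conj]
      rw [he']
    have hmem : Z s ∈ par c a b := by
      refine ⟨Complex.exp ((s : ℂ) * Complex.I), Complex.norm_exp_ofReal_mul_I s, ?_⟩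
      rw [he]
    have h1 := h _ hmem
    simp only [hΨ, hfs, hgs, hWZ, Complex.conj_conj]
    have h2 : conj (Z s) * f (Z s) + g (Z s) + Z s * conj (f (Z s)) + conj (g (Z s))
        = ((2 * (conj (Z s) * f (Z s) + g (Z s)).re : ℝ) : ℂ) := by
      apply Complex.ext
      · simp; ring
      · simp; ring
    rw [h2, h1]
    simp
  have hzero : Ψ = 0 := by
    have hA : AnalyticOnNhd ℂ Ψ Set.univ := hΨd.differentiableOn.analyticOnNhd isOpen_univ
    have hB : AnalyticOnNhd ℂ (0 : ℂ → ℂ) Set.univ := fun _ _ => analyticAt_const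
    refine hA.eq_of_frequently_eq (z₀ := 0) hB ?_
    have ht : Tendsto (fun n : ℕ => (((1 : ℝ) / (n + 1) : ℝ) : ℂ)) atTop (𝓝[≠] 0) := by
      rw [tendsto_nhdsWithin_iff]
      constructor
      · have := tendsto_one_div_add_atTop_nhds_zero_nat (𝕜 := ℝ)
        have h3 := (Complex.continuous_ofReal.tendsto 0).comp this
        rw [Complex.ofReal_zero] at h3
        exact h3
      · filter_upwards with n
        have : (0 : ℝ) < 1 / (n + 1) := by positivity
        simp only [Set.mem_compl_iff, Set.mem_singleton_iff, Complex.ofReal_eq_zero]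
        exact this.ne'
    refine ht.frequently (Eventually.frequently (Eventually.of_forall (fun n => ?_)))
    exact hreal _
  have hs : Complex.exp ((-Complex.I * Complex.log t) * Complex.I) = t := by
    have : (-Complex.I * Complex.log t) * Complex.I = Complex.log t := by
      linear_combination (-Complex.log t) * Complex.I_sq
    rw [this, Complex.exp_log ht]
  have h5 := congrFun hzero (-Complex.I * Complex.log t)
  simp only [hΨ, hZ, hW, hfs, hgs, Pi.zero_apply, Complex.exp_neg, hs] at h5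
  simpa only [div_eq_mul_inv] using h5

lemma freq_zero {l : Filter ℂ} {u : ℂ → ℂ} {a : ℂ} (h : Tendsto u l (𝓝 a))
    (hf : ∃ᶠ z in l, u z = 0) : a = 0 := by
  have h1 : ∃ᶠ z in l, u z ∈ ({0} : Set ℂ) := hf
  have := isClosed_singleton.mem_of_frequently_of_tendsto h1 h
  simpa using this

/-- asymptotics of the branch at infinity -/
lemma branch {c a b : ℂ} (ha : a ≠ 0) {t : ℂ → ℂ}
    (ht : ∀ z, z ≠ c → t z ≠ 0 ∧ a * t z + b / t z = z - c ∧ ‖z - c‖ ≤ 2 * ‖a‖ * ‖t z‖) :
    Tendsto (fun z => (conj c + conj a / t z + conj b * t z) / z) (cobounded ℂ) (𝓝 (conj b / a)) ∧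
    Tendsto (fun z => (conj c + conj a / t z + conj b * t z) - (conj b / a) * z) (cobounded ℂ)
      (𝓝 (conj c - conj b / a * c)) ∧
    Tendsto (fun z => (z - c) * ((conj c + conj a / t z + conj b * t z) - (conj b / a) * z
      - (conj c - conj b / a * c))) (cobounded ℂ) (𝓝 (a * conj a - b * conj b)) := by
  have hzc : ∀ᶠ z : ℂ in cobounded ℂ, z ≠ c := eventually_ne_cobounded c
  have hz0 : ∀ᶠ z : ℂ in cobounded ℂ, z ≠ 0 := eventually_ne_cobounded 0
  have hcob : Tendsto (fun z : ℂ => z⁻¹) (cobounded ℂ) (𝓝 0) := tendsto_inv₀_cobounded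
  have hti : Tendsto (fun z => (t z)⁻¹) (cobounded ℂ) (𝓝 0) := by
    have h1 : Tendsto (fun z : ℂ => ‖z - c‖) (cobounded ℂ) atTop := by
      have h3 : Tendsto (fun z : ℂ => ‖z‖ - ‖c‖) (cobounded ℂ) atTop :=
        tendsto_atTop_add_const_right _ _ tendsto_norm_cobounded_atTop
      refine tendsto_atTop_mono (fun z => ?_) h3
      exact norm_sub_norm_le z c
    have h2 : Tendsto (fun z : ℂ => 2 * ‖a‖ * ‖z - c‖⁻¹) (cobounded ℂ) (𝓝 (2 * ‖a‖ * 0)) :=
      (tendsto_inv_atTop_zero.comp h1).const_mul _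
    rw [mul_zero] at h2
    rw [tendsto_zero_iff_norm_tendsto_zero]
    refine squeeze_zero' (Eventually.of_forall (fun z => norm_nonneg _)) ?_ h2
    filter_upwards [hzc] with z hz
    obtain ⟨h4, h5, h6⟩ := ht z hz
    rw [norm_inv]
    have h7 : 0 < ‖t z‖ := norm_pos_iff.2 h4
    have h8 : 0 < ‖z - c‖ := norm_pos_iff.2 (sub_ne_zero.2 hz)
    rw [inv_le_iff_one_le_mul₀ h7]
    have h9 : 2 * ‖a‖ * ‖z - c‖⁻¹ * ‖t z‖ = (2 * ‖a‖ * ‖t z‖) / ‖z - c‖ := by
      rw [div_eq_mul_inv]; ring
    rw [h9, one_le_div h8]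
    exact h6
  have hid : ∀ z, z ≠ c → (conj c + conj a / t z + conj b * t z)
      = conj b / a * z + (conj c - conj b / a * c) + (conj a - b * conj b / a) * (t z)⁻¹ := by
    intro z hz
    obtain ⟨h4, h5, h6⟩ := ht z hz
    have h8 : conj b / a * (z - c) = conj b * t z + b * conj b / a * (t z)⁻¹ := by
      rw [← h5]; field_simp
    rw [div_eq_mul_inv (conj a) (t z)]
    linear_combination -h8
  refine ⟨?_, ?_, ?_⟩
  · have h1 : Tendsto (fun z => conj b / a * 1 + (conj c - conj b / a * c) * z⁻¹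
        + (conj a - b * conj b / a) * (t z)⁻¹ * z⁻¹) (cobounded ℂ)
        (𝓝 (conj b / a * 1 + (conj c - conj b / a * c) * 0 + (conj a - b * conj b / a) * 0 * 0)) :=
      (tendsto_const_nhds.add (hcob.const_mul _)).add ((hti.const_mul _).mul hcob)
    simp only [mul_one, mul_zero, add_zero] at h1
    refine h1.congr' ?_
    filter_upwards [hzc, hz0] with z hz hz'
    rw [hid z hz]
    field_simp
  · have h1 : Tendsto (fun z => (conj c - conj b / a * c)
        + (conj a - b * conj b / a) * (t z)⁻¹) (cobounded ℂ)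
        (𝓝 ((conj c - conj b / a * c) + (conj a - b * conj b / a) * 0)) :=
      tendsto_const_nhds.add (hti.const_mul _)
    simp only [mul_zero, add_zero] at h1
    refine h1.congr' ?_
    filter_upwards [hzc] with z hz
    rw [hid z hz]
    ring
  · have h1 : Tendsto (fun z => (conj a - b * conj b / a) * (a + b * ((t z)⁻¹) ^ 2)) (cobounded ℂ)
        (𝓝 ((conj a - b * conj b / a) * (a + b * 0 ^ 2))) :=
      (tendsto_const_nhds.add ((hti.pow 2).const_mul _)).const_mul _
    have h2 : (conj a - b * conj b / a) * (a + b * 0 ^ 2) = a * conj a - b * conj b := by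
      field_simp; ring
    rw [h2] at h1
    refine h1.congr' ?_
    filter_upwards [hzc] with z hz
    rw [hid z hz]
    obtain ⟨h4, h5, h6⟩ := ht z hz
    rw [← h5]
    field_simp
    ring

end Pool.N250.TwoEll
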