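import Mathlib
import Pool.Agent.N250.TwoEll.Ell

open Finset ComplexConjugate Filter Topology Bornology

namespace Pool.N250.TwoEll

lemma branches_ne {c1 a1 b1 c2 a2 b2 : ℂ} (h1 : ‖b1‖ < ‖a1‖) (h2 : ‖b2‖ < ‖a2‖)
    (hne : par c1 a1 b1 ≠ par c2 a2 b2) {t1 t2 : ℂ → ℂ}
    (ht1 : ∀ z, z ≠ c1 → t1 z ≠ 0 ∧ a1 * t1 z + b1 / t1 z = z - c1 ∧ ‖z - c1‖ ≤ 2 * ‖a1‖ * ‖t1 z‖)
    (ht2 : ∀ z, z ≠ c2 → t2 z ≠ 0 ∧ a2 * t2 z + b2 / t2 z = z - c2 ∧ ‖z - c2‖ ≤ 2 * ‖a2‖ * ‖t2 z‖) :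
    ∀ᶠ z in cobounded ℂ, (conj c1 + conj a1 / t1 z + conj b1 * t1 z)
      ≠ (conj c2 + conj a2 / t2 z + conj b2 * t2 z) := by
  have hA1 : 0 < ‖a1‖ := (norm_nonneg _).trans_lt h1
  have hA2 : 0 < ‖a2‖ := (norm_nonneg _).trans_lt h2
  have ha1 : a1 ≠ 0 := norm_pos_iff.1 hA1
  have ha2 : a2 ≠ 0 := norm_pos_iff.1 hA2
  by_contra hcon
  rw [not_eventually] at hcon
  have hfr : ∃ᶠ z in cobounded ℂ, (conj c1 + conj a1 / t1 z + conj b1 * t1 z)
      = (conj c2 + conj a2 / t2 z + conj b2 * t2 z) := by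
    refine hcon.mono (fun z hz => ?_)
    push Not at hz
    exact hz
  obtain ⟨A1, B1, C1⟩ := branch ha1 ht1
  obtain ⟨A2, B2, C2⟩ := branch ha2 ht2
  have hα : conj b1 / a1 = conj b2 / a2 := by
    have := freq_zero (A1.sub A2) (hfr.mono (fun z hz => by rw [hz]; ring))
    linear_combination this
  have hβ : conj c1 - conj b1 / a1 * c1 = conj c2 - conj b2 / a2 * c2 := by
    have := freq_zero (B1.sub B2) (hfr.mono (fun z hz => by rw [hz, hα]; ring))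
    linear_combination this
  have hαn : ‖conj b1 / a1‖ < 1 := by
    rw [norm_div, Complex.norm_conj, div_lt_one hA1]
    exact h1
  have hc : c1 = c2 := by
    have h3 : conj (c1 - c2) = conj b1 / a1 * (c1 - c2) := by
      rw [map_sub]
      rw [← hα] at hβ
      linear_combination hβ
    have h4 := congrArg norm h3
    rw [Complex.norm_conj, norm_mul] at h4
    have h5 : ‖c1 - c2‖ = 0 := by
      have := norm_nonneg (c1 - c2)
      nlinarith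
    exact sub_eq_zero.1 (norm_eq_zero.1 h5)
  subst hc
  have hγ : a1 * conj a1 - b1 * conj b1 = a2 * conj a2 - b2 * conj b2 := by
    have := freq_zero (C1.sub C2) (hfr.mono (fun z hz => by rw [hz, hα]; ring))
    linear_combination this
  have hb1 : ‖b1‖ = ‖conj b1 / a1‖ * ‖a1‖ := by
    rw [norm_div, Complex.norm_conj]; field_simp
  have hb2 : ‖b2‖ = ‖conj b1 / a1‖ * ‖a2‖ := by
    rw [hα, norm_div, Complex.norm_conj]; field_simp
  have hγ' : ‖a1‖ ^ 2 - ‖b1‖ ^ 2 = ‖a2‖ ^ 2 - ‖b2‖ ^ 2 := by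
    simp only [Complex.mul_conj, Complex.normSq_eq_norm_sq] at hγ
    exact_mod_cast hγ
  have hn : ‖a1‖ = ‖a2‖ := by
    rw [hb1, hb2] at hγ'
    set ρ := ‖conj b1 / a1‖ with hρ
    have hρ0 : 0 ≤ ρ := norm_nonneg _
    have h6 : (1 - ρ ^ 2) * (‖a1‖ ^ 2 - ‖a2‖ ^ 2) = 0 := by linear_combination hγ'
    have h7 : 0 < 1 - ρ ^ 2 := by nlinarith
    have h8 : ‖a1‖ ^ 2 - ‖a2‖ ^ 2 = 0 := (mul_eq_zero.1 h6).resolve_left h7.ne'
    have h9 : ‖a1‖ ^ 2 = ‖a2‖ ^ 2 := by linarith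
    exact (sq_eq_sq₀ hA1.le hA2.le).1 h9
  exact hne (Set.Subset.antisymm (par_subset ha2 hα.symm ha1 hn.symm) (par_subset ha1 hα ha2 hn))

theorem two_par {c1 a1 b1 c2 a2 b2 : ℂ} (h1 : ‖b1‖ < ‖a1‖) (h2 : ‖b2‖ < ‖a2‖)
    (hne : par c1 a1 b1 ≠ par c2 a2 b2) {f g : ℂ → ℂ} (hf : Differentiable ℂ f)
    (hg : Differentiable ℂ g)
    (hE1 : ∀ z ∈ par c1 a1 b1, (conj z * f z + g z).re = 0)
    (hE2 : ∀ z ∈ par c2 a2 b2, (conj z * f z + g z).re = 0) (z : ℂ) :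
    (conj z * f z + g z).re = 0 := by
  have hA1 : 0 < ‖a1‖ := (norm_nonneg _).trans_lt h1
  have hA2 : 0 < ‖a2‖ := (norm_nonneg _).trans_lt h2
  have ha1 : a1 ≠ 0 := norm_pos_iff.1 hA1
  have ha2 : a2 ≠ 0 := norm_pos_iff.1 hA2
  -- normalization
  set κ : ℂ := (((deriv f 0).im : ℝ) : ℂ) * Complex.I with hκ
  set F : ℂ → ℂ := fun z => f z - f 0 - κ * z with hF
  set G : ℂ → ℂ := fun z => g z + conj (f 0) * z with hG
  have hFd : Differentiable ℂ F := by rw [hF]; fun_prop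
  have hGd : Differentiable ℂ G := by rw [hG]; fun_prop
  have hFG : ∀ z, (conj z * F z + G z).re = (conj z * f z + g z).re := by
    intro z
    simp only [hF, hG, hκ]
    simp
    ring
  have hF0 : F 0 = 0 := by simp [hF]
  have hF1 : (deriv F 0).im = 0 := by
    have : HasDerivAt F (deriv f 0 - κ) 0 := by
      have h3 := ((hf 0).hasDerivAt.sub_const (f 0)).sub ((hasDerivAt_id (0 : ℂ)).const_mul κ)
      rw [mul_one] at h3
      exact h3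
    rw [this.deriv]
    simp [hκ]
  have hex1 : ∀ z, ∃ t, z ≠ c1 → t ≠ 0 ∧ a1 * t + b1 / t = z - c1 ∧ ‖z - c1‖ ≤ 2 * ‖a1‖ * ‖t‖ := by
    intro z
    by_cases hz : z = c1
    · exact ⟨0, fun h => absurd hz h⟩
    · obtain ⟨t, ht⟩ := exists_root a1 b1 (z - c1) ha1 (sub_ne_zero.2 hz)
      exact ⟨t, fun _ => ht⟩
  have hex2 : ∀ z, ∃ t, z ≠ c2 → t ≠ 0 ∧ a2 * t + b2 / t = z - c2 ∧ ‖z - c2‖ ≤ 2 * ‖a2‖ * ‖t‖ := by
    intro z
    by_cases hz : z = c2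
    · exact ⟨0, fun h => absurd hz h⟩
    · obtain ⟨t, ht⟩ := exists_root a2 b2 (z - c2) ha2 (sub_ne_zero.2 hz)
      exact ⟨t, fun _ => ht⟩
  choose t1 ht1 using hex1
  choose t2 ht2 using hex2
  have hbr := branches_ne h1 h2 hne ht1 ht2
  obtain ⟨A1, -, -⟩ := branch ha1 ht1
  obtain ⟨A2, -, -⟩ := branch ha2 ht2
  have hα1 : ‖conj b1 / a1‖ < 1 := by
    rw [norm_div, Complex.norm_conj, div_lt_one hA1]
    exact h1
  have hα2 : ‖conj b2 / a2‖ < 1 := by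
    rw [norm_div, Complex.norm_conj, div_lt_one hA2]
    exact h2
  have hfe : ∀ (c a b : ℂ) (t : ℂ → ℂ),
      (∀ z ∈ par c a b, (conj z * f z + g z).re = 0) →
      (∀ z, z ≠ c → t z ≠ 0 ∧ a * t z + b / t z = z - c ∧ ‖z - c‖ ≤ 2 * ‖a‖ * ‖t z‖) →
      ∀ᶠ z in cobounded ℂ, (conj c + conj a / t z + conj b * t z) * F z + G z
        + z * conj (F (conj (conj c + conj a / t z + conj b * t z)))
        + conj (G (conj (conj c + conj a / t z + conj b * t z))) = 0 := by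
    intro c a b t hE ht
    filter_upwards [eventually_ne_cobounded c] with z hz
    obtain ⟨h4, h5, -⟩ := ht z hz
    have h6 := func_eq hFd hGd (c := c) (a := a) (b := b)
      (fun z hz => by rw [hFG]; exact hE z hz) h4
    have h7 : c + a * t z + b / t z = z := by linear_combination h5
    rwa [h7] at h6
  obtain ⟨hFz, hGz, hG0⟩ := core hFd hGd hα1 hα2 A1 A2 hbr (hfe c1 a1 b1 t1 hE1 ht1)
    (hfe c2 a2 b2 t2 hE2 ht2) hF0 hF1
  rw [← hFG, hFz, hGz]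
  simpa using hG0

end Pool.N250.TwoEll
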