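import Mathlib
import Pool.Agent.N250.TwoEll.Fin

open Finset ComplexConjugate Filter Topology Bornology InnerProductSpace Laplacian

namespace Pool.N250.TwoEll

lemma dir_deriv {F : ℂ → ℝ} {y a : ℂ} {D : ℝ} (hF : DifferentiableAt ℝ F y)
    (h : HasDerivAt (fun s : ℝ => F (y + s * a)) D 0) : fderiv ℝ F y a = D := by
  have h1 : HasDerivAt (fun s : ℝ => y + s * a) a 0 := by
    have := ((Complex.ofRealCLM.hasDerivAt (x := (0 : ℝ))).mul_const a).const_add y
    simpa using this
  have h2 : HasFDerivAt F (fderiv ℝ F y) (y + ((0 : ℝ) : ℂ) * a) := by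
    simpa using hF.hasFDerivAt
  have h3 := h2.comp_hasDerivAt (0 : ℝ) h1
  exact h3.unique h

lemma comp_line {f : ℂ → ℂ} {f' y a : ℂ} (hf : HasDerivAt f f' y) :
    HasDerivAt (fun s : ℝ => f (y + s * a)) (f' * a) 0 := by
  have h1 : HasDerivAt (fun s : ℂ => y + s * a) a 0 := by
    have := ((hasDerivAt_id (0 : ℂ)).mul_const a).const_add y
    simpa using this
  have h2 : HasDerivAt f f' (y + 0 * a) := by simpa using hf
  have h3 := h2.comp (0 : ℂ) h1
  have h4 := h3.comp_ofReal (z := 0)
  exact h4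

lemma conj_line (y a : ℂ) : HasDerivAt (fun s : ℝ => conj (y + s * a)) (conj a) 0 := by
  have : (fun s : ℝ => conj (y + s * a)) = fun s : ℝ => conj y + s * conj a := by
    ext s; simp
  rw [this]
  have := ((Complex.ofRealCLM.hasDerivAt (x := (0 : ℝ))).mul_const (conj a)).const_add (conj y)
  simpa using this

lemma re_line {φ : ℝ → ℂ} {D : ℂ} (h : HasDerivAt φ D 0) :
    HasDerivAt (fun s => (φ s).re) D.re 0 := by
  have := Complex.reCLM.hasFDerivAt.comp_hasDerivAt (0 : ℝ) h
  exact this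

/-- Laplacian of `Re (z̄ f)` -/
lemma laplacian_almansi {f f1 f2 : ℂ → ℂ} (hf : ∀ z, HasDerivAt f (f1 z) z)
    (hf1 : ∀ z, HasDerivAt f1 (f2 z) z) (x : ℂ) :
    Δ (fun z : ℂ => (conj z * f z).re) x = 4 * (f1 x).re := by
  have hfd : Differentiable ℂ f := fun z => (hf z).differentiableAt
  have hf1d : Differentiable ℂ f1 := fun z => (hf1 z).differentiableAt
  have hfc : ContDiff ℝ ⊤ f := (hfd.contDiff (n := ⊤)).restrict_scalars ℝ
  have hf1c : ContDiff ℝ ⊤ f1 := (hf1d.contDiff (n := ⊤)).restrict_scalars ℝ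
  set v : ℂ → ℝ := fun z => (conj z * f z).re with hv
  have hconjc : ContDiff ℝ ⊤ (fun z : ℂ => conj z) := Complex.conjCLE.contDiff
  have hvc : ContDiff ℝ ⊤ v := Complex.reCLM.contDiff.comp (hconjc.mul hfc)
  have hP : ∀ a y, fderiv ℝ v y a = (conj a * f y + conj y * (f1 y * a)).re := by
    intro a y
    apply dir_deriv (hvc.differentiable (by simp) y)
    apply re_line
    have h1 := (conj_line y a).mul (comp_line (a := a) (hf y))
    simp only [Complex.ofReal_zero, zero_mul, add_zero] at h1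
    exact h1
  have hPd : ∀ a y, fderiv ℝ (fun y => fderiv ℝ v y a) y a
      = (conj a * (f1 y * a) + (conj a * (f1 y * a) + conj y * (f2 y * a * a))).re := by
    intro a y
    have he : (fun y => fderiv ℝ v y a) = fun y => (conj a * f y + conj y * (f1 y * a)).re := by
      ext y; exact hP a y
    rw [he]
    apply dir_deriv
    · have : ContDiff ℝ ⊤ (fun y => (conj a * f y + conj y * (f1 y * a)).re) :=
        Complex.reCLM.contDiff.comp ((contDiff_const.mul hfc).add
          (hconjc.mul (hf1c.mul contDiff_const)))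
      exact this.differentiable (by simp) y
    · apply re_line
      have h1 := (comp_line (a := a) (hf y)).const_mul (conj a)
      have h2 := (conj_line y a).mul ((comp_line (a := a) (hf1 y)).mul_const a)
      have h3 := h1.add h2
      simp only [Complex.ofReal_zero, zero_mul, add_zero] at h3
      exact h3
  have hsec : ∀ a, (iteratedFDeriv ℝ 2 v x) ![a, a]
      = fderiv ℝ (fun y => fderiv ℝ v y a) x a := by
    intro a
    rw [iteratedFDeriv_two_apply]
    have hd : DifferentiableAt ℝ (fderiv ℝ v) x :=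
      (hvc.fderiv_right (m := 1) le_top).differentiable (by simp) x
    have h1 := ((ContinuousLinearMap.apply ℝ ℝ a).hasFDerivAt.comp x hd.hasFDerivAt).fderiv
    have h2 : fderiv ℝ (fun y => fderiv ℝ v y a) x
        = (ContinuousLinearMap.apply ℝ ℝ a).comp (fderiv ℝ (fderiv ℝ v) x) := h1
    rw [h2]
    simp
  rw [laplacian_eq_iteratedFDeriv_complexPlane]
  simp only
  rw [hsec, hsec, hPd, hPd]
  simp
  ring

/-- Almansi (Goursat) representation of entire biharmonic functions -/
theorem rep {u : ℂ → ℝ} (hu : ContDiff ℝ ⊤ u) (hΔ : ∀ z, Δ (Δ u) z = 0) :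
    ∃ f g : ℂ → ℂ, Differentiable ℂ f ∧ Differentiable ℂ g ∧
      ∀ z, u z = (conj z * f z + g z).re := by
  have hd2 : ContDiff ℝ 2 (fderiv ℝ (fderiv ℝ u)) :=
    (hu.fderiv_right (m := 3) le_top).fderiv_right (m := 2) (by norm_num)
  have hhc : ContDiff ℝ 2 (Δ u) := by
    rw [laplacian_eq_iteratedFDeriv_complexPlane]
    have e : (fun x => (iteratedFDeriv ℝ 2 u x) ![1, 1]
        + (iteratedFDeriv ℝ 2 u x) ![Complex.I, Complex.I])
        = fun x => (fderiv ℝ (fderiv ℝ u) x 1) 1 + (fderiv ℝ (fderiv ℝ u) x Complex.I) Complex.I := by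
      ext x
      rw [iteratedFDeriv_two_apply, iteratedFDeriv_two_apply]
      rfl
    rw [e]
    fun_prop
  have hharm : HarmonicOnNhd (Δ u) Set.univ := fun x _ =>
    ⟨hhc.contDiffAt, Eventually.of_forall hΔ⟩
  obtain ⟨Hh, hHa, hHre⟩ := hharm.exists_analyticOnNhd_univ_re_eq
  have hHd : Differentiable ℂ Hh := fun z => (hHa z (Set.mem_univ z)).differentiableAt
  obtain ⟨f, hf⟩ := (hHd.div_const 4).isExactOn_univ
  have hf' : ∀ z, HasDerivAt f (Hh z / 4) z := by
    intro z
    have := hf z (Set.mem_univ z)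
    simpa using this
  have hf1 : ∀ z, HasDerivAt (fun z => Hh z / 4) (deriv Hh z / 4) z := fun z =>
    (hHd z).hasDerivAt.div_const 4
  have hfd : Differentiable ℂ f := fun z => (hf' z).differentiableAt
  set v : ℂ → ℝ := fun z => (conj z * f z).re with hv
  have hfc : ContDiff ℝ ⊤ f := (hfd.contDiff (n := ⊤)).restrict_scalars ℝ
  have hconjc : ContDiff ℝ ⊤ (fun z : ℂ => conj z) := Complex.conjCLE.contDiff
  have hvc : ContDiff ℝ ⊤ v := Complex.reCLM.contDiff.comp (hconjc.mul hfc)
  have hΔv : ∀ z, Δ v z = Δ u z := by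
    intro z
    rw [hv, laplacian_almansi hf' hf1, ← hHre]
    simp
    ring
  have hh2 : HarmonicOnNhd (u - v) Set.univ := by
    intro x _
    refine ⟨(hu.sub hvc).contDiffAt.of_le le_top, Eventually.of_forall (fun z => ?_)⟩
    rw [ContDiffAt.laplacian_sub (hu.contDiffAt.of_le le_top) (hvc.contDiffAt.of_le le_top), hΔv]
    simp
  obtain ⟨g, hga, hgre⟩ := hh2.exists_analyticOnNhd_univ_re_eq
  have hgd : Differentiable ℂ g := fun z => (hga z (Set.mem_univ z)).differentiableAt
  refine ⟨f, g, hfd, hgd, fun z => ?_⟩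
  have := congrFun hgre z
  simp only [Pi.sub_apply] at this
  rw [Complex.add_re, this, hv]
  ring

end Pool.N250.TwoEll
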