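import Mathlib
import Pool.Agent.N250.TwoEll.Rep

open Finset ComplexConjugate Filter Topology Bornology InnerProductSpace Laplacian

namespace Pool.N250.TwoEll

/-- the isometry `ℂ ≃ ℝ²` -/
noncomputable abbrev iso : ℂ ≃ₗᵢ[ℝ] EuclideanSpace ℝ (Fin 2) := Complex.orthonormalBasisOneI.repr

lemma laplacian_comp_iso {U : EuclideanSpace ℝ (Fin 2) → ℝ} (hU : ContDiff ℝ 2 U) (z : ℂ) :
    Δ (fun z => U (iso z)) z = Δ U (iso z) := by
  rw [laplacian_eq_iteratedFDeriv_orthonormalBasis _ Complex.orthonormalBasisOneI,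
    laplacian_eq_iteratedFDeriv_orthonormalBasis U (Complex.orthonormalBasisOneI.map iso)]
  apply Finset.sum_congr rfl
  intro i _
  have h := ContinuousLinearMap.iteratedFDeriv_comp_right
    (iso.toContinuousLinearEquiv : ℂ →L[ℝ] EuclideanSpace ℝ (Fin 2)) hU z (i := 2) le_rfl
  have h2 : (fun z => U (iso z))
      = U ∘ (iso.toContinuousLinearEquiv : ℂ →L[ℝ] EuclideanSpace ℝ (Fin 2)) := rfl
  rw [h2, h, ContinuousMultilinearMap.compContinuousLinearMap_apply]
  congr 1
  ext j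
  fin_cases j <;> simp

end Pool.N250.TwoEll
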